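import Pool.Agent.H77.SemigRingTop

set_option autoImplicit false

namespace Pool.Agent.Results.MP_311bfa_al.NoExtension

/-- There are a Hausdorff topological ring `R` and a monoid `G` such that no Hausdorff ring
topology on the semigroup ring `R G` induces the given topology on `R` along `r ↦ r e`. -/
theorem result :
    ∃ (R : Type) (_ : Ring R) (τ₀ : TopologicalSpace R) (_ : IsTopologicalRing R)
      (_ : T2Space R) (G : Type) (_ : Monoid G),
      ¬ ∃ τ : TopologicalSpace (MonoidAlgebra R G),
        @IsTopologicalRing (MonoidAlgebra R G) τ _ ∧ @T2Space (MonoidAlgebra R G) τ ∧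
        TopologicalSpace.induced (fun r : R => (MonoidAlgebra.single (1 : G) r :
          MonoidAlgebra R G)) τ = τ₀ := by
  refine ⟨SeparationQuotient H77.SemigRingTop.S, inferInstance, inferInstance, inferInstance,
    inferInstance, H77.SemigRingTop.Mon, inferInstance, ?_⟩
  rintro ⟨τ, h1, h2, h3⟩
  exact H77.SemigRingTop.no_ext _ H77.SemigRingTop.sandwich_R
    (continuous_iff_le_induced.2 h3.ge)

end Pool.Agent.Results.MP_311bfa_al.NoExtension
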